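import Pool.Agent.H93.ES.Targets

/-!
Board es_modules, CND: the conditional entropy decreases if one knows more.
-/

set_option autoImplicit false

open Finset Pool.Agent.H18.MR Pool.Agent.H93.DE Pool.Agent.H6.N4D Pool.Agent.H93
open Pool.Agent.H93.ES

namespace Pool.Agent.H79.ES

theorem pf_CND : T_CND := by
  intro Ω α β β' _ _ _ _ _ _ μ X Z g
  have h1 := ent_submod (μ := μ) X Z (fun ω => g (Z ω))
  have h2 : ent μ (fun ω => (X ω, Z ω)) = ent μ (fun ω => (X ω, Z ω, g (Z ω))) :=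
    ent_congr_inj (μ := μ) _ _ (fun p => (p.1, p.2, g p.2)) (fun p => (p.1, p.2.1))
      (fun _ => rfl) (fun _ => rfl)
  have h3 : ent μ Z = ent μ (fun ω => (Z ω, g (Z ω))) :=
    ent_congr_inj (μ := μ) _ _ (fun p => (p, g p)) (fun p => p.1) (fun _ => rfl) (fun _ => rfl)
  rw [h2, h3]
  linarith

end Pool.Agent.H79.ES
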